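import Pool.Agent.H95.Cone

set_option autoImplicit false
open Filter Topology Pool.Agent.H95.ConeDefs

universe u

theorem Pool.Agent.Results.MP_5127fd_an.SNormal.result
    (X : Type u) [NormedAddCommGroup X] [NormedSpace ℝ X] [CompleteSpace X] (K : Set X)
    (hK : IsCone K)
    (hS : ∀ x : ℕ → X, (∀ n, x (n + 1) - x n ∈ K) → (∃ v, IsUB K x v) → ∃ s, IsSup K x s) :
    IsNormal K :=
  Pool.Agent.H95.Cone.normal_of_S hK hS
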